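import Pool.Agent.RRM.Defs

/-!
# The lower median
-/

set_option autoImplicit false

noncomputable section

namespace Pool.Agent.RRM

open Real

variable {n : ℕ}

theorem med_le_iff (a : Fin (n + 1) → ℝ) (x : ℝ) :
    med a ≤ x ↔ n / 2 + 1 ≤ (Finset.univ.filter fun i => a i ≤ x).card := by
  set k : Fin (n + 1) := ⟨n / 2, Nat.lt_succ_of_le (Nat.div_le_self n 2)⟩ with hk
  have hm : Monotone (a ∘ Tuple.sort a) := Tuple.monotone_sort a
  have e : med a = a (Tuple.sort a k) := rfl
  rw [e]
  constructor
  · intro h
    have h1 : (Finset.Iic k).map (Tuple.sort a).toEmbedding ⊆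
        Finset.univ.filter fun i => a i ≤ x := by
      intro i hi
      rw [Finset.mem_map] at hi
      obtain ⟨j, hj, rfl⟩ := hi
      rw [Finset.mem_filter]
      exact ⟨Finset.mem_univ _, (hm (Finset.mem_Iic.1 hj)).trans h⟩
    have h2 := Finset.card_le_card h1
    rw [Finset.card_map, Fin.card_Iic] at h2
    exact h2
  · intro h
    by_contra hc
    push Not at hc
    have h1 : (Finset.univ.filter fun i => a i ≤ x) ⊆
        (Finset.Iio k).map (Tuple.sort a).toEmbedding := by
      intro i hi
      rw [Finset.mem_filter] at hi
      rw [Finset.mem_map]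
      refine ⟨(Tuple.sort a).symm i, ?_, by simp⟩
      rw [Finset.mem_Iio]
      by_contra hj
      push Not at hj
      have := hm hj
      simp only [Function.comp_apply, Equiv.apply_symm_apply] at this
      linarith [hi.2]
    have h2 := Finset.card_le_card h1
    rw [Finset.card_map, Fin.card_Iio] at h2
    have h3 : (k : ℕ) = n / 2 := rfl
    omega

theorem le_med_iff (a : Fin (n + 1) → ℝ) (x : ℝ) :
    x ≤ med a ↔ (Finset.univ.filter fun i => a i < x).card ≤ n / 2 := by
  set k : Fin (n + 1) := ⟨n / 2, Nat.lt_succ_of_le (Nat.div_le_self n 2)⟩ with hk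
  have hm : Monotone (a ∘ Tuple.sort a) := Tuple.monotone_sort a
  have e : med a = a (Tuple.sort a k) := rfl
  have h3 : (k : ℕ) = n / 2 := rfl
  rw [e]
  constructor
  · intro h
    have h1 : (Finset.univ.filter fun i => a i < x) ⊆
        (Finset.Iio k).map (Tuple.sort a).toEmbedding := by
      intro i hi
      rw [Finset.mem_filter] at hi
      rw [Finset.mem_map]
      refine ⟨(Tuple.sort a).symm i, ?_, by simp⟩
      rw [Finset.mem_Iio]
      by_contra hj
      push Not at hj
      have := hm hj
      simp only [Function.comp_apply, Equiv.apply_symm_apply] at this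
      linarith [hi.2]
    have h2 := Finset.card_le_card h1
    rw [Finset.card_map, Fin.card_Iio] at h2
    exact h2
  · intro h
    by_contra hc
    push Not at hc
    have h1 : (Finset.Iic k).map (Tuple.sort a).toEmbedding ⊆
        Finset.univ.filter fun i => a i < x := by
      intro i hi
      rw [Finset.mem_map] at hi
      obtain ⟨j, hj, rfl⟩ := hi
      rw [Finset.mem_filter]
      exact ⟨Finset.mem_univ _, (hm (Finset.mem_Iic.1 hj)).trans_lt hc⟩
    have h2 := Finset.card_le_card h1
    rw [Finset.card_map, Fin.card_Iic] at h2
    omega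

/-- at least half of the numbers are at most the median -/
theorem card_le_med (a : Fin (n + 1) → ℝ) :
    n + 1 ≤ 2 * (Finset.univ.filter fun i => a i ≤ med a).card := by
  have := (med_le_iff a (med a)).1 le_rfl
  omega

/-- at least half of the numbers are at least the median -/
theorem card_med_le (a : Fin (n + 1) → ℝ) :
    n + 1 ≤ 2 * (Finset.univ.filter fun i => med a ≤ a i).card := by
  have h := (le_med_iff a (med a)).1 le_rfl
  have := Finset.card_filter_add_card_filter_not (s := (Finset.univ : Finset (Fin (n + 1))))
    (fun i => med a ≤ a i)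
  rw [Finset.card_univ, Fintype.card_fin] at this
  simp only [not_le] at this
  omega

theorem med_mono {a b : Fin (n + 1) → ℝ} {c : ℝ} (h : ∀ i, b i ≤ a i + c) : med b ≤ med a + c := by
  rw [med_le_iff]
  refine ((med_le_iff a (med a)).1 le_rfl).trans (Finset.card_le_card ?_)
  intro i hi
  rw [Finset.mem_filter] at hi ⊢
  exact ⟨hi.1, by linarith [h i, hi.2]⟩

theorem med_sub (a : Fin (n + 1) → ℝ) (c : ℝ) : med (fun i => a i - c) = med a - c := by
  apply le_antisymm
  · have := med_mono (a := a) (b := fun i => a i - c) (c := -c) (fun i => by linarith)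
    linarith
  · have := med_mono (a := fun i => a i - c) (b := a) (c := c) (fun i => by linarith)
    linarith

theorem continuous_med : Continuous (med : (Fin (n + 1) → ℝ) → ℝ) := by
  have : LipschitzWith 1 (med : (Fin (n + 1) → ℝ) → ℝ) := by
    apply LipschitzWith.of_dist_le_mul
    intro a b
    rw [NNReal.coe_one, one_mul, Real.dist_eq, abs_sub_le_iff]
    have h : ∀ i, |a i - b i| ≤ dist a b := fun i => by
      rw [← Real.dist_eq]; exact dist_le_pi_dist a b i
    constructor
    · have := med_mono (a := b) (b := a) (c := dist a b)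
        (fun i => by linarith [(abs_le.1 (h i)).2])
      linarith
    · have := med_mono (a := a) (b := b) (c := dist a b)
        (fun i => by linarith [(abs_le.1 (h i)).1])
      linarith
  exact this.continuous

end Pool.Agent.RRM
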