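import Pool.Agent.RRM.FrameB
import Pool.Agent.RRM.Med

/-!
# The cost of the mechanism in one frame
-/

set_option autoImplicit false

noncomputable section

namespace Pool.Agent.RRM

open Real Matrix

variable {n d : ℕ}

theorem act_sub (R : SO d) (x y : E d) : act R (x - y) = act R x - act R y := by
  unfold act
  rw [WithLp.ofLp_sub, Matrix.mulVec_sub, WithLp.toLp_sub]

theorem act_mul (Q R : SO d) (x : E d) : act (Q * R) x = act Q (act R x) := by
  unfold act
  rw [Submonoid.coe_mul, ← Matrix.mulVec_mulVec]

theorem act_one (x : E d) : act (1 : SO d) x = x := by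
  unfold act
  rw [Submonoid.coe_one, Matrix.one_mulVec]

theorem act_act_inv (R : SO d) (x : E d) : act R (act R⁻¹ x) = x := by
  rw [← act_mul, mul_inv_cancel, act_one]

theorem act_inv_act (R : SO d) (x : E d) : act R⁻¹ (act R x) = x := by
  rw [← act_mul, inv_mul_cancel, act_one]

theorem norm_act (R : SO d) (x : E d) : ‖act R x‖ = ‖x‖ := by
  have hR : (R : Matrix (Fin d) (Fin d) ℝ)ᵀ * (R : Matrix (Fin d) (Fin d) ℝ) = 1 := by
    have := (Matrix.mem_specialOrthogonalGroup_iff.1 R.2).1
    exact (Matrix.mem_orthogonalGroup_iff' _ _).1 this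
  have h : ‖act R x‖ ^ 2 = ‖x‖ ^ 2 := by
    rw [EuclideanSpace.real_norm_sq_eq, EuclideanSpace.real_norm_sq_eq]
    have e : ∀ v : Fin d → ℝ, ∑ i, v i ^ 2 = v ⬝ᵥ v := fun v => by
      unfold dotProduct; exact Finset.sum_congr rfl fun i _ => sq _
    have e1 : ∑ i, (act R x) i ^ 2 =
        ((R : Matrix (Fin d) (Fin d) ℝ) *ᵥ x.ofLp) ⬝ᵥ ((R : Matrix (Fin d) (Fin d) ℝ) *ᵥ x.ofLp) :=
      e _
    rw [e1, Matrix.dotProduct_mulVec, Matrix.vecMul_mulVec, hR, Matrix.vecMul_one]
    exact (e _).symm
  exact (pow_left_inj₀ (norm_nonneg _) (norm_nonneg _) two_ne_zero).1 h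

theorem continuous_act (x : E d) : Continuous fun R : SO d => act R x := by
  unfold act
  exact (PiLp.continuous_toLp 2 _).comp
    (Continuous.matrix_mulVec continuous_subtype_val continuous_const)

theorem cwm_sub (z : Fin (n + 1) → E d) (c : E d) : cwm (fun i => z i - c) = cwm z - c := by
  ext j
  unfold cwm
  simp only [PiLp.sub_apply]
  exact med_sub (fun i => z i j) (c j)

/-- the cost of the mechanism, in the rotated frame with origin `y` -/
theorem cost_rr (R : SO d) (p : Fin (n + 1) → E d) (y : E d) :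
    cost p (rr R p) = ∑ i, ‖act R (p i - y) - cwm fun i => act R (p i - y)‖ := by
  unfold cost rr
  refine Finset.sum_congr rfl fun i _ => ?_
  have e : (fun i => act R (p i - y)) = fun i => act R (p i) - act R y := by
    funext i; exact act_sub _ _ _
  rw [e, cwm_sub, act_sub, sub_sub_sub_cancel_right]
  rw [← norm_act R (p i - act R⁻¹ _), act_sub, act_act_inv]

theorem cost_le (R : SO 3) (p : Fin (n + 1) → E 3) (y : E 3) :
    cost p (rr R p) ≤ ∑ i, hh (act R (p i - y)) := by
  rw [cost_rr R p y]
  exact frame _ _ (fun j => card_med_le fun i => (act R (p i - y)) j)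
    (fun j => card_le_med fun i => (act R (p i - y)) j)

theorem continuous_cost (p : Fin (n + 1) → E d) : Continuous fun R : SO d => cost p (rr R p) := by
  have e : (fun R : SO d => cost p (rr R p)) =
      fun R : SO d => ∑ i, ‖act R (p i) - cwm fun i => act R (p i)‖ := by
    funext R
    have := cost_rr R p 0
    simpa using this
  rw [e]
  refine continuous_finsetSum _ fun i _ => Continuous.norm ((continuous_act _).sub ?_)
  unfold cwm
  refine (PiLp.continuous_toLp 2 _).comp (continuous_pi fun j => ?_)
  refine continuous_med.comp (continuous_pi fun i => ?_)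
  exact (PiLp.continuous_apply 2 _ j).comp (continuous_act (p i))

theorem continuous_hh : Continuous hh := by
  unfold hh H
  have h : ∀ j : Fin 3, Continuous fun x : E 3 => |x j| := fun j =>
    (PiLp.continuous_apply 2 _ j).abs
  exact (((h 0).add (h 1)).add (h 2)).sub (continuous_const.mul ((h 0).min ((h 1).min (h 2))))

theorem hh_smul (c : ℝ) (x : E 3) : hh (c • x) = |c| * hh x := by
  unfold hh H
  simp only [PiLp.smul_apply, smul_eq_mul, abs_mul]
  rw [← mul_min_of_nonneg _ _ (abs_nonneg c), ← mul_min_of_nonneg _ _ (abs_nonneg c)]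
  ring

end Pool.Agent.RRM
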