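import Mathlib

/-!
# The randomly rotated coordinate-wise median mechanism: definitions

1. `med a`: the lower median of `n + 1` real numbers, the `⌈(n + 1) / 2⌉`-th smallest of them.
2. `cwm p`: the coordinate-wise median of the points `p i`.
3. `act R x`: the rotation `R ∈ SO(d)` applied to the vector `x`.
4. `rr R p = R⁻¹ CWM(R p)`: the output of the mechanism for the rotation `R`.
5. `cost p y`: the social cost `∑ ‖p i - y‖`.
-/

set_option autoImplicit false

noncomputable section

namespace Pool.Agent.RRM

open MeasureTheory Matrix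

/-- the rotation group `SO(d)` -/
abbrev SO (d : ℕ) : Type := Matrix.specialOrthogonalGroup (Fin d) ℝ

/-- Euclidean space of dimension `d` -/
abbrev E (d : ℕ) : Type := EuclideanSpace ℝ (Fin d)

/-- The lower median of the numbers `a i`, `i < n + 1`: they are sorted, and the number in the place
`n / 2` (counted from `0`) is taken, i.e. the `⌈(n + 1) / 2⌉`-th smallest number. -/
def med {n : ℕ} (a : Fin (n + 1) → ℝ) : ℝ :=
  a (Tuple.sort a ⟨n / 2, Nat.lt_succ_of_le (Nat.div_le_self n 2)⟩)

/-- the coordinate-wise median of the points `p i` -/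
def cwm {n d : ℕ} (p : Fin (n + 1) → E d) : E d :=
  WithLp.toLp 2 fun j => med fun i => p i j

/-- the rotation `R` applied to the vector `x` -/
def act {d : ℕ} (R : SO d) (x : E d) : E d :=
  WithLp.toLp 2 ((R : Matrix (Fin d) (Fin d) ℝ) *ᵥ x.ofLp)

/-- the output of the mechanism: the coordinate-wise median of the rotated points, rotated back -/
def rr {n d : ℕ} (R : SO d) (p : Fin (n + 1) → E d) : E d :=
  act R⁻¹ (cwm fun i => act R (p i))

/-- the social cost of the location `y` -/
def cost {n d : ℕ} (p : Fin (n + 1) → E d) (y : E d) : ℝ := ∑ i, ‖p i - y‖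

end Pool.Agent.RRM
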