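import Pool.Agent.RRM.Defs

/-!
# The inequality in one frame: the pointwise inequality with multipliers

`n2`, `n3` are the Euclidean norms, `th = 1 / √3`, `h2 b c = max b c + th min b c`,
`H a b c = a + b + c - (1 - th) min a b c`.
-/

set_option autoImplicit false

noncomputable section

namespace Pool.Agent.RRM

open Real

/-- the constant `1 / √3` -/
def th : ℝ := 1 / √3

theorem th_pos : 0 < th := by unfold th; positivity

theorem th_sq : th ^ 2 = 1 / 3 := by
  unfold th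
  rw [div_pow, one_pow, Real.sq_sqrt (by norm_num)]

theorem th_lb : 57 / 100 ≤ th := by
  by_contra h
  push Not at h
  nlinarith [th_sq, th_pos]

theorem th_ub : th ≤ 58 / 100 := by
  by_contra h
  push Not at h
  nlinarith [th_sq, th_pos]

/-- the norm of a vector of the plane -/
def n2 (x y : ℝ) : ℝ := √(x ^ 2 + y ^ 2)

/-- the norm of a vector of the space -/
def n3 (x y z : ℝ) : ℝ := √(x ^ 2 + y ^ 2 + z ^ 2)

/-- the function `max + th min` -/
def h2 (b c : ℝ) : ℝ := max b c + th * min b c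

/-- the majorant -/
def H (a b c : ℝ) : ℝ := a + b + c - (1 - th) * min a (min b c)

theorem n2_nonneg (x y : ℝ) : 0 ≤ n2 x y := Real.sqrt_nonneg _
theorem n3_nonneg (x y z : ℝ) : 0 ≤ n3 x y z := Real.sqrt_nonneg _
theorem n2_sq (x y : ℝ) : n2 x y ^ 2 = x ^ 2 + y ^ 2 := Real.sq_sqrt (by positivity)
theorem n3_sq (x y z : ℝ) : n3 x y z ^ 2 = x ^ 2 + y ^ 2 + z ^ 2 := Real.sq_sqrt (by positivity)

theorem n2_comm (x y : ℝ) : n2 x y = n2 y x := by unfold n2; congr 1; ring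
theorem n3_comm12 (x y z : ℝ) : n3 x y z = n3 y x z := by unfold n3; congr 1; ring
theorem n3_comm23 (x y z : ℝ) : n3 x y z = n3 x z y := by unfold n3; congr 1; ring
theorem h2_comm (x y : ℝ) : h2 x y = h2 y x := by unfold h2; rw [max_comm, min_comm]
theorem H_comm12 (x y z : ℝ) : H x y z = H y x z := by
  unfold H; rw [min_left_comm]; ring
theorem H_comm23 (x y z : ℝ) : H x y z = H x z y := by
  unfold H; rw [min_comm y z]; ring

theorem n2_le {x y s : ℝ} (hs : 0 ≤ s) (h : x ^ 2 + y ^ 2 ≤ s ^ 2) : n2 x y ≤ s :=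
  Real.sqrt_le_iff.2 ⟨hs, h⟩
theorem n3_le {x y z s : ℝ} (hs : 0 ≤ s) (h : x ^ 2 + y ^ 2 + z ^ 2 ≤ s ^ 2) : n3 x y z ≤ s :=
  Real.sqrt_le_iff.2 ⟨hs, h⟩

/-- triangle inequality -/
theorem n3_add (x y z x' y' z' : ℝ) : n3 (x + x') (y + y') (z + z') ≤ n3 x y z + n3 x' y' z' := by
  apply n3_le (add_nonneg (n3_nonneg _ _ _) (n3_nonneg _ _ _))
  have h1 := n3_sq x y z
  have h2 := n3_sq x' y' z'
  have h3 : x * x' + y * y' + z * z' ≤ n3 x y z * n3 x' y' z' := by
    apply le_of_sq_le_sq _ (mul_nonneg (n3_nonneg _ _ _) (n3_nonneg _ _ _))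
    rw [mul_pow, h1, h2]
    nlinarith [sq_nonneg (x * y' - y * x'), sq_nonneg (x * z' - z * x'),
      sq_nonneg (y * z' - z * y')]
  nlinarith

theorem n3_zero_left (y z : ℝ) : n3 0 y z = n2 y z := by unfold n3 n2; congr 1; ring

theorem n3_axis (x : ℝ) : n3 x 0 0 = |x| := by
  unfold n3
  rw [← Real.sqrt_sq_eq_abs]; congr 1; ring

theorem n3_smul {t : ℝ} (ht : 0 ≤ t) (x y z : ℝ) : n3 (t * x) (t * y) (t * z) = t * n3 x y z := by
  unfold n3
  rw [show (t * x) ^ 2 + (t * y) ^ 2 + (t * z) ^ 2 = t ^ 2 * (x ^ 2 + y ^ 2 + z ^ 2) by ring,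
    Real.sqrt_mul (by positivity), Real.sqrt_sq ht]

/-- monotonicity in the absolute values -/
theorem n3_mono {x y z x' y' z' : ℝ} (hx : |x| ≤ |x'|) (hy : |y| ≤ |y'|) (hz : |z| ≤ |z'|) :
    n3 x y z ≤ n3 x' y' z' := by
  apply Real.sqrt_le_sqrt
  have h1 := sq_le_sq.2 hx
  have h2 := sq_le_sq.2 hy
  have h3 := sq_le_sq.2 hz
  linarith

theorem n3_abs (x y z : ℝ) : n3 |x| |y| |z| = n3 x y z := by
  unfold n3; simp only [sq_abs]

/-- fact (b) -/
theorem n2_le_h2 {b c : ℝ} (hb : 0 ≤ b) (hc : 0 ≤ c) : n2 b c ≤ h2 b c := by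
  have key : ∀ {b c : ℝ}, 0 ≤ c → c ≤ b → n2 b c ≤ h2 b c := by
    intro b c hc hcb
    have h1 : h2 b c = b + th * c := by unfold h2; rw [max_eq_left hcb, min_eq_right hcb]
    rw [h1]
    have hb : 0 ≤ b := hc.trans hcb
    apply n2_le (by have := th_pos; positivity)
    have := th_lb
    have h3 := th_sq
    nlinarith [mul_nonneg hc (sub_nonneg.2 hcb), mul_nonneg hc hc, mul_nonneg hb hc,
      mul_nonneg (mul_nonneg hb hc) (sub_nonneg.2 th_lb)]
  rcases le_total c b with h | h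
  · exact key hc h
  · rw [n2_comm, h2_comm]; exact key hb h

theorem H_ge1 {x y z : ℝ} : x + h2 y z ≤ H x y z := by
  unfold h2 H
  have h1 := th_ub
  have h2 : min x (min y z) ≤ min y z := min_le_right _ _
  have h3 := min_add_max y z
  nlinarith

theorem H_ge2 {x y z : ℝ} : y + h2 x z ≤ H x y z := by
  rw [H_comm12]; exact H_ge1

theorem H_ge3 {x y z : ℝ} : z + h2 x y ≤ H x y z := by
  rw [H_comm23, H_comm12]; exact H_ge1

theorem n3_le_add {x y z : ℝ} (hx : 0 ≤ x) : n3 x y z ≤ x + n2 y z := by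
  have := n3_add x 0 0 0 y z
  rw [n3_axis, n3_zero_left, abs_of_nonneg hx] at this
  simpa using this

theorem n3_le_H {x y z : ℝ} (hx : 0 ≤ x) (hy : 0 ≤ y) (hz : 0 ≤ z) : n3 x y z ≤ H x y z :=
  (n3_le_add hx).trans ((add_le_add_right (n2_le_h2 hy hz) x).trans H_ge1)

/-- fact (c): the reverse of Hlawka's inequality for `h2` -/
theorem rev_hlawka {a b c : ℝ} (ha : 0 ≤ a) (hb : 0 ≤ b) (hc : 0 ≤ c) :
    a + b + c + n3 a b c ≤ h2 a b + h2 a c + h2 b c := by
  have key : ∀ {a b c : ℝ}, 0 ≤ c → c ≤ b → b ≤ a →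
      a + b + c + n3 a b c ≤ h2 a b + h2 a c + h2 b c := by
    intro a b c hc hcb hba
    have e1 : h2 a b = a + th * b := by unfold h2; rw [max_eq_left hba, min_eq_right hba]
    have e2 : h2 a c = a + th * c := by
      unfold h2; rw [max_eq_left (hcb.trans hba), min_eq_right (hcb.trans hba)]
    have e3 : h2 b c = b + th * c := by unfold h2; rw [max_eq_left hcb, min_eq_right hcb]
    rw [e1, e2, e3]
    obtain ⟨β, rfl⟩ : ∃ β, b = c + β := ⟨b - c, by ring⟩
    obtain ⟨α, rfl⟩ : ∃ α, a = c + β + α := ⟨a - (c + β), by ring⟩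
    have hβ : 0 ≤ β := by linarith
    have hα : 0 ≤ α := by linarith
    have := th_lb
    have h3 := th_sq
    have hn : n3 (c + β + α) (c + β) c ≤ α + (1 + th) * β + 3 * th * c := by
      apply n3_le (by have := th_pos; positivity)
      have t1 : 0 ≤ α * β := mul_nonneg hα hβ
      have t2 : 0 ≤ α * c := mul_nonneg hα hc
      have t3 : 0 ≤ β * c := mul_nonneg hβ hc
      have t4 : 0 ≤ β * β := mul_nonneg hβ hβ
      have e : (α + (1 + th) * β + 3 * th * c) ^ 2 =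
          α ^ 2 + (1 + 2 * th + th ^ 2) * β ^ 2 + 9 * th ^ 2 * c ^ 2 + 2 * (1 + th) * (α * β) +
            6 * th * (α * c) + (6 * th + 6 * th ^ 2) * (β * c) := by ring
      rw [e, h3]
      nlinarith [mul_nonneg t1 (sub_nonneg.2 th_lb), mul_nonneg t2 (sub_nonneg.2 th_lb),
        mul_nonneg t3 (sub_nonneg.2 th_lb), mul_nonneg t4 (sub_nonneg.2 th_lb)]
    linarith
  rcases le_total a b with h1 | h1 <;> rcases le_total b c with h2' | h2' <;>
    rcases le_total a c with h3 | h3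
  · -- a ≤ b ≤ c
    have := key ha h1 h2'
    rw [h2_comm c b, h2_comm c a, h2_comm b a] at this
    rw [n3_comm12 a b c, n3_comm23 b a c, n3_comm12 b c a]
    linarith
  · have := key ha h1 h2'
    rw [h2_comm c b, h2_comm c a, h2_comm b a] at this
    rw [n3_comm12 a b c, n3_comm23 b a c, n3_comm12 b c a]
    linarith
  · -- a ≤ c ≤ b
    have := key ha h3 h2'
    rw [h2_comm b a, h2_comm c a] at this
    rw [n3_comm12 a b c, n3_comm23 b a c]
    linarith
  · -- c ≤ a ≤ b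
    have := key hc h3 h1
    rw [h2_comm b a] at this
    rw [n3_comm12 a b c]
    linarith
  · -- b ≤ a, b ≤ c, a ≤ c
    have := key hb h1 h3
    rw [h2_comm c a, h2_comm c b] at this
    rw [n3_comm23 a b c, n3_comm12 a c b]
    linarith
  · -- b ≤ a, b ≤ c, c ≤ a
    have := key hb h2' h3
    rw [h2_comm c b] at this
    rw [n3_comm23 a b c]
    linarith
  · have := key hc h2' h1
    linarith
  · have := key hc h2' h1
    linarith

/-- Hlawka's inequality for orthogonal vectors -/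
theorem hlawka {a b c : ℝ} (ha : 0 ≤ a) (hb : 0 ≤ b) (hc : 0 ≤ c) :
    n2 b c + n2 a c + n2 a b ≤ a + b + c + n3 a b c := by
  have hN := n3_nonneg a b c
  have hNs := n3_sq a b c
  have hx := n2_nonneg b c
  have hxs := n2_sq b c
  have hy := n2_nonneg a c
  have hys := n2_sq a c
  have hz := n2_nonneg a b
  have hzs := n2_sq a b
  have x1 : n2 b c ≤ b + c := n2_le (by positivity) (by nlinarith [mul_nonneg hb hc])
  have y1 : n2 a c ≤ a + c := n2_le (by positivity) (by nlinarith [mul_nonneg ha hc])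
  have z1 : n2 a b ≤ a + b := n2_le (by positivity) (by nlinarith [mul_nonneg ha hb])
  have x2 : n2 b c ≤ n3 a b c := n2_le hN (by rw [hNs]; nlinarith [sq_nonneg a])
  have y2 : n2 a c ≤ n3 a b c := n2_le hN (by rw [hNs]; nlinarith [sq_nonneg b])
  have z2 : n2 a b ≤ n3 a b c := n2_le hN (by rw [hNs]; nlinarith [sq_nonneg c])
  generalize n2 b c = x at *
  generalize n2 a c = y at *
  generalize n2 a b = z at *
  generalize n3 a b c = N at *
  rcases eq_or_lt_of_le (show 0 ≤ a + b + c + N by positivity) with h | h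
  · have : a = 0 := by linarith
    have : b = 0 := by linarith
    have : c = 0 := by linarith
    have : N = 0 := by linarith
    nlinarith
  · have key : 0 ≤ (a + b + c + N - x - y - z) * (a + b + c + N) := by
      have e : (a + b + c + N - x - y - z) * (a + b + c + N) =
          (b + c - x) * (a + N - x) + (c + a - y) * (b + N - y) + (a + b - z) * (c + N - z) := by
        nlinarith
      rw [e]
      have p1 : 0 ≤ (b + c - x) * (a + N - x) := mul_nonneg (by linarith) (by linarith)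
      have p2 : 0 ≤ (c + a - y) * (b + N - y) := mul_nonneg (by linarith) (by linarith)
      have p3 : 0 ≤ (a + b - z) * (c + N - z) := mul_nonneg (by linarith) (by linarith)
      linarith
    have := nonneg_of_mul_nonneg_left key h
    linarith

theorem n2_add (y z y' z' : ℝ) : n2 (y + y') (z + z') ≤ n2 y z + n2 y' z' := by
  have := n3_add 0 y z 0 y' z'
  rw [n3_zero_left, n3_zero_left, add_zero, n3_zero_left] at this
  exact this

theorem n2_neg (y z : ℝ) : n2 (-y) (-z) = n2 y z := by unfold n2; congr 1; ring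
theorem n3_neg (x y z : ℝ) : n3 (-x) (-y) (-z) = n3 x y z := by unfold n3; congr 1; ring

theorem n2_abs (x y : ℝ) : n2 |x| |y| = n2 x y := by unfold n2; simp only [sq_abs]

theorem h2_mono {b c c' : ℝ} (h : c ≤ c') : h2 b c ≤ h2 b c' := by
  unfold h2
  have h1 := max_le_max_left b h
  have h3 := min_le_min_left b h
  nlinarith [th_pos]

/-- the slope of `h2` is at least `th` -/
theorem h2_slope {b r q : ℝ} (hq : 0 ≤ q) : h2 b r + th * q ≤ h2 b (q + r) := by
  unfold h2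
  have h1 := th_pos
  have h2 := th_ub
  rcases le_total b r with h | h
  · rw [max_eq_right h, min_eq_left h, max_eq_right (by linarith), min_eq_left (by linarith)]
    nlinarith
  · rw [max_eq_left h, min_eq_right h]
    rcases le_total b (q + r) with h' | h'
    · rw [max_eq_right h', min_eq_left h']
      nlinarith
    · rw [max_eq_left h', min_eq_right h']
      nlinarith

/-- no coordinate above the median -/
theorem case0 (m0 m1 m2 z0 z1 z2 : ℝ) :
    n3 (z0 - m0) (z1 - m1) (z2 - m2) - n3 m0 m1 m2 ≤ H |z0| |z1| |z2| := by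
  have h1 := n3_add z0 z1 z2 (-m0) (-m1) (-m2)
  rw [n3_neg, ← n3_abs z0] at h1
  have h2 := n3_le_H (abs_nonneg z0) (abs_nonneg z1) (abs_nonneg z2)
  simp only [← sub_eq_add_neg] at h1
  linarith

/-- one coordinate above the median -/
theorem case1 {m0 m1 m2 z0 z1 z2 : ℝ} (h0 : 0 ≤ m0) (hz : m0 ≤ z0) :
    n3 (z0 - m0) (z1 - m1) (z2 - m2) + (m0 - n2 m1 m2) ≤ H |z0| |z1| |z2| := by
  have h1 := n3_le_add (y := z1 - m1) (z := z2 - m2) (sub_nonneg.2 hz)
  have h2 := n2_add z1 z2 (-m1) (-m2)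
  rw [n2_neg, ← n2_abs z1] at h2
  simp only [← sub_eq_add_neg] at h2
  have h3 := n2_le_h2 (abs_nonneg z1) (abs_nonneg z2)
  have h4 := H_ge1 (x := |z0|) (y := |z1|) (z := |z2|)
  have h5 := le_abs_self z0
  linarith

/-- two coordinates above the median -/
theorem case2 {m0 m1 m2 z0 z1 z2 : ℝ} (h0 : 0 ≤ m0) (h1 : 0 ≤ m1) (h2' : 0 ≤ m2) (hz1 : m1 ≤ z1)
    (hz2 : m2 ≤ z2) :
    n3 (z0 - m0) (z1 - m1) (z2 - m2) + (h2 m1 m2 - m0) ≤ H |z0| |z1| |z2| := by
  have e1 : |z1| = z1 := abs_of_nonneg (h1.trans hz1)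
  have e2 : |z2| = z2 := abs_of_nonneg (h2'.trans hz2)
  rw [e1, e2]
  -- move `m0` out
  have a1 : n3 (z0 - m0) (z1 - m1) (z2 - m2) ≤ m0 + n3 |z0| (z1 - m1) (z2 - m2) := by
    have b1 := n3_add |z0| (z1 - m1) (z2 - m2) m0 0 0
    rw [n3_axis, abs_of_nonneg h0, add_zero, add_zero] at b1
    have b2 : n3 (z0 - m0) (z1 - m1) (z2 - m2) ≤ n3 (|z0| + m0) (z1 - m1) (z2 - m2) := by
      apply n3_mono _ le_rfl le_rfl
      rw [abs_of_nonneg (a := |z0| + m0) (by positivity)]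
      have := abs_sub z0 m0
      rw [abs_of_nonneg h0] at this
      exact this
    linarith
  have key : ∀ {x s t p q : ℝ}, 0 ≤ x → 0 ≤ s → 0 ≤ t → 0 ≤ q → q ≤ p →
      p + th * q + n3 x s t ≤ (p + s) + h2 x (q + t) := by
    intro x s t p q hx hs ht hq hqp
    have c1 : n3 x s t ≤ s + n2 x t := by
      rw [n3_comm12]; exact n3_le_add hs
    have c2 := n2_le_h2 hx ht
    have c3 := h2_slope (b := x) (r := t) hq
    linarith
  have hx := abs_nonneg z0
  rcases le_total m2 m1 with h | h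
  · have e : h2 m1 m2 = m1 + th * m2 := by unfold h2; rw [max_eq_left h, min_eq_right h]
    have := key (s := z1 - m1) (t := z2 - m2) hx (by linarith) (by linarith) h2' h
    rw [show m1 + (z1 - m1) = z1 by ring, show m2 + (z2 - m2) = z2 by ring] at this
    have g := H_ge2 (x := |z0|) (y := z1) (z := z2)
    rw [e]
    linarith
  · have e : h2 m1 m2 = m2 + th * m1 := by unfold h2; rw [max_eq_right h, min_eq_left h]
    have := key (s := z2 - m2) (t := z1 - m1) hx (by linarith) (by linarith) h1 h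
    rw [show m1 + (z1 - m1) = z1 by ring, show m2 + (z2 - m2) = z2 by ring,
      n3_comm23] at this
    have g := H_ge3 (x := |z0|) (y := z1) (z := z2)
    rw [e]
    linarith

theorem n3_conv {t : ℝ} (h0 : 0 ≤ t) (h1 : t ≤ 1) (a q r : ℝ) :
    n3 (t * a) q r ≤ (1 - t) * n3 0 q r + t * n3 a q r := by
  have := n3_add ((1 - t) * 0) ((1 - t) * q) ((1 - t) * r) (t * a) (t * q) (t * r)
  rw [n3_smul (by linarith), n3_smul h0] at this
  rw [show (1 - t) * 0 + t * a = t * a by ring, show (1 - t) * q + t * q = q by ring,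
    show (1 - t) * r + t * r = r by ring] at this
  exact this

theorem split1 {a p q r q' r' M : ℝ} (hp : 0 ≤ p) (hpa : p ≤ a)
    (h0 : n3 0 q r + n3 a q' r' ≤ M) (h1 : n3 a q r + n3 0 q' r' ≤ M) :
    n3 p q r + n3 (a - p) q' r' ≤ M := by
  rcases eq_or_lt_of_le (hp.trans hpa) with h | h
  · have : p = 0 := by linarith
    subst this
    rw [sub_zero]
    exact h0
  · obtain ⟨t, rfl⟩ : ∃ t, p = t * a := ⟨p / a, by field_simp⟩
    have ht0 : 0 ≤ t := nonneg_of_mul_nonneg_left hp h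
    have ht1 : t ≤ 1 := by
      by_contra hc
      push Not at hc
      nlinarith
    have c1 := n3_conv ht0 ht1 a q r
    have c2 := n3_conv (t := 1 - t) (by linarith) (by linarith) a q' r'
    rw [show (1 - t) * a = a - t * a by ring, show 1 - (1 - t) = t by ring] at c2
    nlinarith

/-- all coordinates above the median -/
theorem case3 {m0 m1 m2 z0 z1 z2 : ℝ} (h0 : 0 ≤ m0) (h1 : 0 ≤ m1) (h2' : 0 ≤ m2) (hz0 : m0 ≤ z0)
    (hz1 : m1 ≤ z1) (hz2 : m2 ≤ z2) :
    n3 m0 m1 m2 + n3 (z0 - m0) (z1 - m1) (z2 - m2) ≤ H z0 z1 z2 := by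
  have k0 : 0 ≤ z0 := h0.trans hz0
  have k1 : 0 ≤ z1 := h1.trans hz1
  have k2 : 0 ≤ z2 := h2'.trans hz2
  have g0 : n3 z0 z1 z2 ≤ H z0 z1 z2 := n3_le_H k0 k1 k2
  have g1 : z0 + n2 z1 z2 ≤ H z0 z1 z2 := by
    have := n2_le_h2 k1 k2
    have := H_ge1 (x := z0) (y := z1) (z := z2)
    linarith
  have g2 : z1 + n2 z0 z2 ≤ H z0 z1 z2 := by
    have := n2_le_h2 k0 k2
    have := H_ge2 (x := z0) (y := z1) (z := z2)
    linarith
  have g3 : z2 + n2 z0 z1 ≤ H z0 z1 z2 := by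
    have := n2_le_h2 k0 k1
    have := H_ge3 (x := z0) (y := z1) (z := z2)
    linarith
  have e0 : ∀ {x : ℝ}, 0 ≤ x → n3 x 0 0 = x := fun hx => by rw [n3_axis, abs_of_nonneg hx]
  have e1 : ∀ {x : ℝ}, 0 ≤ x → n3 0 x 0 = x := fun hx => by rw [n3_comm12]; exact e0 hx
  have e2 : ∀ {x : ℝ}, 0 ≤ x → n3 0 0 x = x := fun hx => by
    rw [n3_comm23]; exact e1 hx
  have f0 : ∀ {y z : ℝ}, n3 0 y z = n2 y z := n3_zero_left _ _
  have f1 : ∀ {x z : ℝ}, n3 x 0 z = n2 x z := by intro x z; rw [n3_comm12]; exact f0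
  have f2 : ∀ {x y : ℝ}, n3 x y 0 = n2 x y := by intro x y; rw [n3_comm23]; exact f1
  have z000 : n3 0 0 0 = 0 := e0 le_rfl
  -- corners
  have corner : ∀ (p q r p' q' r' : ℝ), (p = 0 ∧ p' = z0 ∨ p = z0 ∧ p' = 0) →
      (q = 0 ∧ q' = z1 ∨ q = z1 ∧ q' = 0) → (r = 0 ∧ r' = z2 ∨ r = z2 ∧ r' = 0) →
      n3 p q r + n3 p' q' r' ≤ H z0 z1 z2 := by
    intro p q r p' q' r' hp hq hr
    rcases hp with ⟨rfl, rfl⟩ | ⟨rfl, rfl⟩ <;> rcases hq with ⟨rfl, rfl⟩ | ⟨rfl, rfl⟩ <;>
      rcases hr with ⟨rfl, rfl⟩ | ⟨rfl, rfl⟩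
    · rw [z000]; linarith
    · rw [e2 k2, f2]; linarith
    · rw [e1 k1, f1]; linarith
    · rw [f0, e0 k0]; linarith
    · rw [e0 k0, f0]; linarith
    · rw [f1, e1 k1]; linarith
    · rw [f2, e2 k2]; linarith
    · rw [z000]; linarith
  have hr : ∀ (p q p' q' : ℝ), (p = 0 ∧ p' = z0 ∨ p = z0 ∧ p' = 0) →
      (q = 0 ∧ q' = z1 ∨ q = z1 ∧ q' = 0) →
      n3 p q m2 + n3 p' q' (z2 - m2) ≤ H z0 z1 z2 := by
    intro p q p' q' hp hq
    have s1 := corner p q 0 p' q' z2 hp hq (Or.inl ⟨rfl, rfl⟩)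
    have s2 := corner p q z2 p' q' 0 hp hq (Or.inr ⟨rfl, rfl⟩)
    have sw : ∀ x y z : ℝ, n3 x y z = n3 z x y := by
      intro x y z; rw [n3_comm23, n3_comm12]
    rw [sw p q, sw p' q'] at s1 s2 ⊢
    exact split1 h2' hz2 s1 s2
  have hq : ∀ (p p' : ℝ), (p = 0 ∧ p' = z0 ∨ p = z0 ∧ p' = 0) →
      n3 p m1 m2 + n3 p' (z1 - m1) (z2 - m2) ≤ H z0 z1 z2 := by
    intro p p' hp
    have s1 := hr p 0 p' z1 hp (Or.inl ⟨rfl, rfl⟩)
    have s2 := hr p z1 p' 0 hp (Or.inr ⟨rfl, rfl⟩)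
    rw [n3_comm12 p, n3_comm12 p'] at s1 s2 ⊢
    exact split1 h1 hz1 s1 s2
  exact split1 h0 hz0 (hq 0 z0 (Or.inl ⟨rfl, rfl⟩)) (hq z0 0 (Or.inr ⟨rfl, rfl⟩))

end Pool.Agent.RRM
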