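import Pool.Agent.RRM.Frame

/-!
# The inequality in one frame: multipliers and summation
-/

set_option autoImplicit false

noncomputable section

namespace Pool.Agent.RRM

open Real

theorem exists_mult {a b c u v w T : ℝ} (h1 : a ≤ u) (h2 : b ≤ v) (h3 : c ≤ w)
    (hT : a + b + c ≤ T) (hT' : T ≤ u + v + w) :
    ∃ x y z : ℝ, a ≤ x ∧ x ≤ u ∧ b ≤ y ∧ y ≤ v ∧ c ≤ z ∧ z ≤ w ∧ x + y + z = T := by
  obtain ⟨x, hx1, hx2, hx3, hx4⟩ : ∃ x, a ≤ x ∧ x ≤ u ∧ b + c ≤ T - x ∧ T - x ≤ v + w := by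
    rcases le_total u (T - b - c) with h | h
    · exact ⟨u, h1, le_rfl, by linarith, by linarith⟩
    · exact ⟨T - b - c, by linarith, h, by linarith, by linarith⟩
  obtain ⟨y, hy1, hy2, hy3, hy4⟩ : ∃ y, b ≤ y ∧ y ≤ v ∧ c ≤ T - x - y ∧ T - x - y ≤ w := by
    rcases le_total v (T - x - c) with h | h
    · exact ⟨v, h2, le_rfl, by linarith, by linarith⟩
    · exact ⟨T - x - c, by linarith, h, by linarith, by linarith⟩
  exact ⟨x, y, T - x - y, hx1, hx2, hy1, hy2, hy3, hy4, by ring⟩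

/-- `1` above the threshold, `-1` below -/
def sg (m z : ℝ) : ℝ := if m ≤ z then 1 else -1

theorem pointwise {m0 m1 m2 : ℝ} (h0 : 0 ≤ m0) (h1 : 0 ≤ m1) (h2' : 0 ≤ m2) :
    ∃ l0 l1 l2 : ℝ, 0 ≤ l0 ∧ 0 ≤ l1 ∧ 0 ≤ l2 ∧ ∀ z0 z1 z2 : ℝ,
      n3 (z0 - m0) (z1 - m1) (z2 - m2) + (sg m0 z0 * l0 + sg m1 z1 * l1 + sg m2 z2 * l2) / 2 ≤
        H |z0| |z1| |z2| := by
  set N := n3 m0 m1 m2 with hN
  have hNs := n3_sq m0 m1 m2
  have N0 : 0 ≤ N := n3_nonneg _ _ _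
  have q0 : m0 ≤ N := Real.le_sqrt_of_sq_le (by nlinarith [sq_nonneg m1, sq_nonneg m2])
  have q1 : m1 ≤ N := Real.le_sqrt_of_sq_le (by nlinarith [sq_nonneg m0, sq_nonneg m2])
  have q2 : m2 ≤ N := Real.le_sqrt_of_sq_le (by nlinarith [sq_nonneg m1, sq_nonneg m0])
  have r0 : n2 m1 m2 ≤ N := n2_le N0 (by rw [hN, n3_sq]; nlinarith [sq_nonneg m0])
  have r1 : n2 m0 m2 ≤ N := n2_le N0 (by rw [hN, n3_sq]; nlinarith [sq_nonneg m1])
  have r2 : n2 m0 m1 ≤ N := n2_le N0 (by rw [hN, n3_sq]; nlinarith [sq_nonneg m2])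
  have s0 := n2_le_h2 h1 h2'
  have s1 := n2_le_h2 h0 h2'
  have s2 := n2_le_h2 h0 h1
  have hr := rev_hlawka h0 h1 h2'
  have hh := hlawka h0 h1 h2'
  have big : ∀ {b c : ℝ}, 0 ≤ b → 0 ≤ c → b ≤ h2 b c ∧ c ≤ h2 b c := by
    intro b c hb hc
    unfold h2
    have : 0 ≤ th * min b c := mul_nonneg th_pos.le (le_min hb hc)
    exact ⟨by linarith [le_max_left b c], by linarith [le_max_right b c]⟩
  have t0 := big h1 h2'
  have t1 := big h0 h2'
  have t2 := big h0 h1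
  obtain ⟨x, y, z, hx, hx', hy, hy', hz, hz', hs⟩ := exists_mult (T := 2 * N)
    (a := max (N + m0 - h2 m1 m2) 0) (b := max (N + m1 - h2 m0 m2) 0)
    (c := max (N + m2 - h2 m0 m1) 0) (u := N + m0 - n2 m1 m2) (v := N + m1 - n2 m0 m2)
    (w := N + m2 - n2 m0 m1) (max_le (by linarith) (by linarith))
    (max_le (by linarith) (by linarith)) (max_le (by linarith) (by linarith))
    (by
      rcases max_cases (N + m0 - h2 m1 m2) 0 with ⟨e0, -⟩ | ⟨e0, -⟩ <;>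
        rcases max_cases (N + m1 - h2 m0 m2) 0 with ⟨e1, -⟩ | ⟨e1, -⟩ <;>
        rcases max_cases (N + m2 - h2 m0 m1) 0 with ⟨e2, -⟩ | ⟨e2, -⟩ <;>
        rw [e0, e1, e2] <;> linarith [t0.1, t0.2, t1.1, t1.2, t2.1, t2.2])
    (by linarith)
  refine ⟨x, y, z, (le_max_right _ _).trans hx, (le_max_right _ _).trans hy,
    (le_max_right _ _).trans hz, fun z0 z1 z2 => ?_⟩
  have x1 := (le_max_left _ _).trans hx
  have y1 := (le_max_left _ _).trans hy
  have w1 := (le_max_left _ _).trans hz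
  unfold sg
  split_ifs with c0 c1 c2 c2 c1 c2 c2
  · -- all
    have := case3 h0 h1 h2' c0 c1 c2
    rw [abs_of_nonneg (h0.trans c0), abs_of_nonneg (h1.trans c1), abs_of_nonneg (h2'.trans c2)]
    linarith
  · -- 0, 1
    have := case2 (m0 := m2) (z0 := z2) h2' h0 h1 c0 c1
    rw [n3_comm12, n3_comm23, H_comm12, H_comm23] at this
    linarith
  · -- 0, 2
    have := case2 (m0 := m1) (z0 := z1) h1 h0 h2' c0 c2
    rw [n3_comm12, H_comm12] at this
    linarith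
  · -- 0
    have := case1 (m1 := m1) (m2 := m2) (z1 := z1) (z2 := z2) h0 c0
    linarith
  · -- 1, 2
    have := case2 (m0 := m0) (z0 := z0) h0 h1 h2' c1 c2
    linarith
  · -- 1
    have := case1 (m1 := m0) (m2 := m2) (z1 := z0) (z2 := z2) h1 c1
    rw [n3_comm12, H_comm12] at this
    linarith
  · -- 2
    have := case1 (m1 := m0) (m2 := m1) (z1 := z0) (z2 := z1) h2' c2
    rw [n3_comm12, n3_comm23, H_comm12, H_comm23] at this
    linarith
  · have := case0 m0 m1 m2 z0 z1 z2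
    linarith

/-- the majorant as a function on the space -/
def hh (x : E 3) : ℝ := H |x 0| |x 1| |x 2|

theorem sum_sg {n : ℕ} (a : Fin (n + 1) → ℝ) (m : ℝ)
    (h : n + 1 ≤ 2 * (Finset.univ.filter fun i => m ≤ a i).card) :
    0 ≤ ∑ i, sg m (a i) := by
  unfold sg
  rw [Finset.sum_ite, Finset.sum_const, Finset.sum_const]
  have := Finset.card_filter_add_card_filter_not (s := (Finset.univ : Finset (Fin (n + 1))))
    (fun i => m ≤ a i)
  rw [Finset.card_univ, Fintype.card_fin] at this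
  simp only [nsmul_eq_mul, mul_one, mul_neg]
  have h' : (n + 1 : ℝ) ≤ 2 * ((Finset.univ.filter fun i => m ≤ a i).card : ℝ) := by
    exact_mod_cast h
  have h'' : ((Finset.univ.filter fun i => m ≤ a i).card : ℝ) +
      ((Finset.univ.filter fun i => ¬ m ≤ a i).card : ℝ) = n + 1 := by exact_mod_cast this
  linarith

theorem norm_eq_n3 (x : E 3) : ‖x‖ = n3 (x 0) (x 1) (x 2) := by
  rw [EuclideanSpace.norm_eq, Fin.sum_univ_three]
  unfold n3
  simp only [Real.norm_eq_abs, sq_abs]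

/-- **The inequality in one frame.** -/
theorem frame {n : ℕ} (z : Fin (n + 1) → E 3) (m : E 3)
    (h1 : ∀ j, n + 1 ≤ 2 * (Finset.univ.filter fun i => m j ≤ z i j).card)
    (h2 : ∀ j, n + 1 ≤ 2 * (Finset.univ.filter fun i => z i j ≤ m j).card) :
    ∑ i, ‖z i - m‖ ≤ ∑ i, hh (z i) := by
  obtain ⟨s, hs⟩ : ∃ s : Fin 3 → ℝ, ∀ j, (s j = 1 ∧ 0 ≤ m j) ∨ (s j = -1 ∧ m j ≤ 0) := by
    refine ⟨fun j => if 0 ≤ m j then 1 else -1, fun j => ?_⟩
    by_cases h : 0 ≤ m j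
    · left; simp [h]
    · right; simp only [h, if_false, true_and]; exact (not_le.1 h).le
  have hm : ∀ j, s j * m j = |m j| := by
    intro j
    rcases hs j with ⟨h, h'⟩ | ⟨h, h'⟩
    · rw [h, one_mul, abs_of_nonneg h']
    · rw [h, abs_of_nonpos h', neg_one_mul]
  have hsq : ∀ j, s j ^ 2 = 1 := by
    intro j; rcases hs j with ⟨h, -⟩ | ⟨h, -⟩ <;> rw [h] <;> norm_num
  have hab : ∀ j, |s j| = 1 := by
    intro j; rcases hs j with ⟨h, -⟩ | ⟨h, -⟩ <;> rw [h] <;> norm_num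
  obtain ⟨l0, l1, l2, k0, k1, k2, hp⟩ := pointwise (abs_nonneg (m 0)) (abs_nonneg (m 1))
    (abs_nonneg (m 2))
  have hsum : ∀ j, 0 ≤ ∑ i, sg |m j| (s j * z i j) := by
    intro j
    apply sum_sg
    rcases hs j with ⟨h, h'⟩ | ⟨h, h'⟩
    · rw [h, abs_of_nonneg h']
      simpa using h1 j
    · rw [h, abs_of_nonpos h']
      simpa using h2 j
  have hi : ∀ i, ‖z i - m‖ + (sg |m 0| (s 0 * z i 0) * l0 + sg |m 1| (s 1 * z i 1) * l1 +
      sg |m 2| (s 2 * z i 2) * l2) / 2 ≤ hh (z i) := by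
    intro i
    have := hp (s 0 * z i 0) (s 1 * z i 1) (s 2 * z i 2)
    have e1 : n3 (s 0 * z i 0 - |m 0|) (s 1 * z i 1 - |m 1|) (s 2 * z i 2 - |m 2|) =
        ‖z i - m‖ := by
      rw [norm_eq_n3, ← hm, ← hm, ← hm]
      unfold n3
      congr 1
      simp only [PiLp.sub_apply]
      rw [← mul_sub, ← mul_sub, ← mul_sub, mul_pow, mul_pow, mul_pow, hsq, hsq, hsq]
      ring
    rw [e1, abs_mul, abs_mul, abs_mul, hab, hab, hab, one_mul, one_mul, one_mul] at this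
    exact this
  have hsumi := Finset.sum_le_sum fun i (_ : i ∈ Finset.univ) => hi i
  rw [Finset.sum_add_distrib, ← Finset.sum_div, Finset.sum_add_distrib, Finset.sum_add_distrib,
    ← Finset.sum_mul, ← Finset.sum_mul, ← Finset.sum_mul] at hsumi
  have a0 := mul_nonneg (hsum 0) k0
  have a1 := mul_nonneg (hsum 1) k1
  have a2 := mul_nonneg (hsum 2) k2
  linarith

end Pool.Agent.RRM
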