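import Pool.Agent.RRM.Defs

/-!
# Gaussian integrals in dimension three
-/

set_option autoImplicit false

noncomputable section

namespace Pool.Agent.RRM

open MeasureTheory Matrix ProbabilityTheory Real

/-- the standard Gaussian measure on `ℝ³`, as a product -/
def pg : Measure (Fin 3 → ℝ) := Measure.pi fun _ => gaussianReal 0 1

instance : IsProbabilityMeasure pg := by unfold pg; infer_instance

theorem integral_std (F : E 3 → ℝ) (hF : Measurable F) :
    ∫ g, F g ∂(stdGaussian (E 3)) = ∫ x, F (WithLp.toLp 2 x) ∂pg := by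
  rw [← map_pi_eq_stdGaussian, integral_map]
  · rfl
  · fun_prop
  · exact hF.aestronglyMeasurable

theorem pdf_eq (t : ℝ) : gaussianPDFReal 0 1 t = (√(2 * π))⁻¹ * rexp (-t ^ 2 / 2) := by
  simp [gaussianPDFReal]

/-! ### The mean of the absolute value of a coordinate -/

theorem gauss_abs_one : ∫ t, |t| ∂(gaussianReal 0 1) = √(2 / π) := by
  rw [integral_gaussianReal_eq_integral_smul one_ne_zero]
  simp_rw [pdf_eq, smul_eq_mul]
  have h1 : ∀ t : ℝ, (√(2 * π))⁻¹ * rexp (-t ^ 2 / 2) * |t| =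
      (fun s : ℝ => (√(2 * π))⁻¹ * (s * rexp (-s ^ 2 / 2))) |t| := by
    intro t
    simp only [sq_abs]
    ring
  simp_rw [h1]
  rw [integral_comp_abs (f := fun s : ℝ => (√(2 * π))⁻¹ * (s * rexp (-s ^ 2 / 2))),
    integral_const_mul]
  have h2 : ∫ s in Set.Ioi (0 : ℝ), s * rexp (-s ^ 2 / 2) = 1 := by
    have h3 := integral_rpow_mul_exp_neg_mul_rpow (p := 2) (q := 1) (b := 1 / 2)
      (by norm_num) (by norm_num) (by norm_num)
    have h4 : ∫ s in Set.Ioi (0 : ℝ), s * rexp (-s ^ 2 / 2) =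
        ∫ s in Set.Ioi (0 : ℝ), s ^ (1 : ℝ) * rexp (-(1 / 2) * s ^ (2 : ℝ)) := by
      refine setIntegral_congr_fun measurableSet_Ioi fun s _ => ?_
      simp only [rpow_one]
      rw [show ((2 : ℝ)) = ((2 : ℕ) : ℝ) by norm_num, rpow_natCast]
      congr 2
      push_cast
      ring
    rw [h4, h3]
    norm_num
  rw [h2, mul_one]
  have hπ := Real.pi_pos
  rw [eq_comm, Real.sqrt_eq_iff_mul_self_eq (by positivity) (by positivity)]
  have h5 : √(2 * π) * √(2 * π) = 2 * π := Real.mul_self_sqrt (by positivity)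
  field_simp
  nlinarith [h5]

theorem integrable_abs_one : Integrable (fun t : ℝ => |t|) (gaussianReal 0 1) :=
  IsGaussian.integrable_id.abs

theorem integrable_abs_pg (j : Fin 3) : Integrable (fun x : Fin 3 → ℝ => |x j|) pg :=
  (measurePreserving_eval (fun _ : Fin 3 => gaussianReal 0 1) j).integrable_comp_of_integrable
    integrable_abs_one

theorem integral_abs_pg (j : Fin 3) : ∫ x : Fin 3 → ℝ, |x j| ∂pg = √(2 / π) := by
  rw [← gauss_abs_one]
  have h := (measurePreserving_eval (fun _ : Fin 3 => gaussianReal 0 1) j).map_eq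
  rw [← h, integral_map (measurable_pi_apply j).aemeasurable (by fun_prop)]
  rfl

theorem gauss_abs (j : Fin 3) :
    ∫ g : E 3, |g j| ∂(stdGaussian (E 3)) = √(2 / π) := by
  rw [integral_std _ (by fun_prop), ← integral_abs_pg j]

/-! ### The mean of the norm -/

theorem pg_density : pg = (volume : Measure (Fin 3 → ℝ)).withDensity
    (fun x => ENNReal.ofReal (∏ i, gaussianPDFReal 0 1 (x i))) := by
  unfold pg
  apply Measure.pi_eq
  intro s hs
  rw [withDensity_apply _ (MeasurableSet.univ_pi hs)]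
  have hm : ∀ i : Fin 3, Integrable (gaussianPDFReal 0 1)
      ((volume : Measure ℝ).restrict (s i)) := fun i =>
    (integrable_gaussianPDFReal 0 1).restrict
  rw [volume_pi, Measure.restrict_pi_pi, ← ofReal_integral_eq_lintegral_ofReal]
  · rw [integral_fintype_prod_eq_prod (f := fun _ : Fin 3 => gaussianPDFReal 0 1),
      ENNReal.ofReal_prod_of_nonneg]
    · refine Finset.prod_congr rfl fun i _ => ?_
      rw [gaussianReal_apply_eq_integral 0 one_ne_zero]
    · exact fun i _ => integral_nonneg fun x => gaussianPDFReal_nonneg 0 1 x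
  · exact Integrable.fintype_prod hm
  · exact Filter.Eventually.of_forall fun x =>
      Finset.prod_nonneg fun i _ => gaussianPDFReal_nonneg 0 1 (x i)

theorem prod_pdf (x : E 3) : ∏ i, gaussianPDFReal 0 1 (x i) =
    (√(2 * π))⁻¹ ^ 3 * rexp (-‖x‖ ^ 2 / 2) := by
  simp_rw [pdf_eq]
  rw [Finset.prod_mul_distrib, Finset.prod_const, ← Real.exp_sum, EuclideanSpace.real_norm_sq_eq]
  simp [neg_div, Finset.sum_div]

theorem radial : ∫ r in Set.Ioi (0 : ℝ), r ^ 2 * (r * rexp (-r ^ 2 / 2)) = 2 := by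
  have h3 := integral_rpow_mul_exp_neg_mul_rpow (p := 2) (q := 3) (b := 1 / 2)
    (by norm_num) (by norm_num) (by norm_num)
  have h4 : ∫ r in Set.Ioi (0 : ℝ), r ^ 2 * (r * rexp (-r ^ 2 / 2)) =
      ∫ s in Set.Ioi (0 : ℝ), s ^ (3 : ℝ) * rexp (-(1 / 2) * s ^ (2 : ℝ)) := by
    refine setIntegral_congr_fun measurableSet_Ioi fun s _ => ?_
    rw [show ((2 : ℝ)) = ((2 : ℕ) : ℝ) by norm_num, rpow_natCast,
      show ((3 : ℝ)) = ((3 : ℕ) : ℝ) by norm_num, rpow_natCast]
    push_cast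
    rw [show -s ^ 2 / 2 = -(1 / 2) * s ^ 2 by ring]
    ring
  rw [h4, h3]
  norm_num

theorem sqrt_eq : √(2 / π) = 2 / √(2 * π) := by
  have hπ := Real.pi_pos
  have h5 : √(2 * π) * √(2 * π) = 2 * π := Real.mul_self_sqrt (by positivity)
  have h6 : 0 < √(2 * π) := by positivity
  rw [Real.sqrt_eq_iff_mul_self_eq (by positivity) (by positivity)]
  field_simp
  nlinarith [h5]

theorem norm_integral : ∫ x, ‖(WithLp.toLp 2 x : E 3)‖ ∂pg = 2 * √(2 / π) := by
  rw [pg_density]
  rw [integral_withDensity_eq_integral_toReal_smul]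
  · have h1 : ∀ x : Fin 3 → ℝ, (ENNReal.ofReal (∏ i, gaussianPDFReal 0 1 (x i))).toReal •
        ‖(WithLp.toLp 2 x : E 3)‖ = (fun y : E 3 => (fun r : ℝ =>
          (√(2 * π))⁻¹ ^ 3 * rexp (-r ^ 2 / 2) * r) ‖y‖) (WithLp.toLp 2 x) := by
      intro x
      rw [ENNReal.toReal_ofReal
        (Finset.prod_nonneg fun i _ => gaussianPDFReal_nonneg 0 1 (x i)), smul_eq_mul]
      have := prod_pdf (WithLp.toLp 2 x)
      simp only at this ⊢
      rw [this]
    simp_rw [h1]
    rw [(PiLp.volume_preserving_toLp (Fin 3)).integral_comp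
      (MeasurableEquiv.toLp 2 (Fin 3 → ℝ)).measurableEmbedding
      (fun y : E 3 => (fun r : ℝ => (√(2 * π))⁻¹ ^ 3 * rexp (-r ^ 2 / 2) * r) ‖y‖)]
    rw [integral_fun_norm_addHaar volume
      (fun r : ℝ => (√(2 * π))⁻¹ ^ 3 * rexp (-r ^ 2 / 2) * r)]
    have h2 : ∀ r : ℝ, r ^ (Module.finrank ℝ (E 3) - 1) •
        ((√(2 * π))⁻¹ ^ 3 * rexp (-r ^ 2 / 2) * r) =
        (√(2 * π))⁻¹ ^ 3 * (r ^ 2 * (r * rexp (-r ^ 2 / 2))) := by
      intro r
      simp only [finrank_euclideanSpace, Fintype.card_fin, smul_eq_mul]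
      norm_num
      ring
    simp_rw [h2]
    rw [integral_const_mul, radial, Measure.real, EuclideanSpace.volume_ball_fin_three]
    simp only [finrank_euclideanSpace, Fintype.card_fin, smul_eq_mul, nsmul_eq_mul]
    have hπ := Real.pi_pos
    rw [ENNReal.toReal_mul, ENNReal.toReal_ofReal (by positivity)]
    rw [sqrt_eq]
    simp
    field_simp
    rw [Real.sq_sqrt hπ.le, Real.sq_sqrt (by norm_num)]
    ring
  · fun_prop
  · simp

theorem gauss_norm (j : Fin 3) :
    ∫ g, ‖g‖ ∂(stdGaussian (E 3)) = 2 * ∫ g : E 3, |g j| ∂(stdGaussian (E 3)) := by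
  rw [gauss_abs, integral_std _ (by fun_prop), norm_integral]

/-! ### The mean of the smallest absolute value -/

theorem exp_neg_le (u : ℝ) (hu : 0 ≤ u) : rexp (-u) ≤ 1 - u + u ^ 2 / 2 := by
  have h1 := Real.quadratic_le_exp_of_nonneg hu
  have h2 : 0 < 1 - u + u ^ 2 / 2 := by nlinarith [sq_nonneg (u - 1)]
  rw [Real.exp_neg, inv_le_iff_one_le_mul₀ (Real.exp_pos u)]
  calc (1 : ℝ) ≤ (1 - u + u ^ 2 / 2) * (1 + u + u ^ 2 / 2) := by nlinarith [sq_nonneg (u ^ 2)]
    _ ≤ _ := mul_le_mul_of_nonneg_left h1 h2.le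

theorem sqrt_two_div_pi_le : √(2 / π) ≤ 0.79789 := by
  rw [Real.sqrt_le_left (by norm_num), div_le_iff₀ Real.pi_pos]
  have := Real.pi_gt_d6
  norm_num at this ⊢
  nlinarith

/-- the probability that the absolute value exceeds `t` -/
theorem tail_lower (t : ℝ) (ht : 0 ≤ t) :
    1 - √(2 / π) * (t - t ^ 3 / 6 + t ^ 5 / 40) ≤ (gaussianReal 0 1).real {s | t < |s|} := by
  have h0 : {s : ℝ | t < |s|} = (Set.Icc (-t) t)ᶜ := by
    ext s
    simp only [Set.mem_ofPred_eq, Set.mem_compl_iff, Set.mem_Icc, ← abs_le, not_le]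
  rw [h0, measureReal_compl measurableSet_Icc, probReal_univ]
  have h1 : (gaussianReal 0 1).real (Set.Icc (-t) t) = ∫ s in (-t)..t, gaussianPDFReal 0 1 s := by
    rw [Measure.real, gaussianReal_apply_eq_integral 0 one_ne_zero,
      ENNReal.toReal_ofReal (integral_nonneg fun x => gaussianPDFReal_nonneg 0 1 x),
      integral_Icc_eq_integral_Ioc, intervalIntegral.integral_of_le (by linarith)]
  have h2 : ∫ s in (-t)..t, gaussianPDFReal 0 1 s ≤
      ∫ s in (-t)..t, (√(2 * π))⁻¹ * (1 - s ^ 2 / 2 + s ^ 4 / 8) := by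
    apply intervalIntegral.integral_mono_on (by linarith)
    · exact (integrable_gaussianPDFReal 0 1).intervalIntegrable
    · apply Continuous.intervalIntegrable
      fun_prop
    · intro s _
      rw [pdf_eq]
      refine mul_le_mul_of_nonneg_left ?_ (by positivity)
      have := exp_neg_le (s ^ 2 / 2) (by positivity)
      rw [show -s ^ 2 / 2 = -(s ^ 2 / 2) by ring]
      linarith
  have h3 : ∫ s in (-t)..t, (√(2 * π))⁻¹ * (1 - s ^ 2 / 2 + s ^ 4 / 8) =
      √(2 / π) * (t - t ^ 3 / 6 + t ^ 5 / 40) := by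
    have hd : ∀ s ∈ Set.uIcc (-t) t, HasDerivAt (fun s : ℝ => (√(2 * π))⁻¹ *
        (s - s ^ 3 / 6 + s ^ 5 / 40)) ((√(2 * π))⁻¹ * (1 - s ^ 2 / 2 + s ^ 4 / 8)) s := by
      intro s _
      refine HasDerivAt.const_mul _ ?_
      refine (((hasDerivAt_id s).sub ((hasDerivAt_pow 3 s).div_const 6)).add
        ((hasDerivAt_pow 5 s).div_const 40)).congr_deriv ?_
      push_cast
      ring
    rw [intervalIntegral.integral_eq_sub_of_hasDerivAt hd (by
      apply Continuous.intervalIntegrable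
      fun_prop), sqrt_eq]
    ring
  linarith

/-- the smallest absolute value of the coordinates -/
def mn (x : Fin 3 → ℝ) : ℝ := min |x 0| (min |x 1| |x 2|)

theorem mn_meas : Measurable mn := by
  unfold mn
  fun_prop

theorem mn_set (t : ℝ) : pg {x | t < mn x} = (gaussianReal 0 1 {s | t < |s|}) ^ 3 := by
  have h : {x : Fin 3 → ℝ | t < mn x} = Set.pi Set.univ fun _ => {s : ℝ | t < |s|} := by
    ext x
    simp [mn, Set.mem_pi, Fin.forall_fin_succ]
  rw [h]
  unfold pg
  rw [Measure.pi_pi]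
  simp

theorem mn_real (t : ℝ) : pg.real {x | t < mn x} = ((gaussianReal 0 1).real {s | t < |s|}) ^ 3 := by
  rw [Measure.real, mn_set, ENNReal.toReal_pow]
  rfl

/-- the polynomial below the tail -/
def qp (t : ℝ) : ℝ := 1 - 79789 / 100000 * (t - t ^ 3 / 6 + t ^ 5 / 40)

/-- an antiderivative -/
def an1 (t : ℝ) : ℝ := 1 / 2 * t ^ 2 - 1 / 24 * t ^ 4 + 1 / 240 * t ^ 6

theorem an1_deriv (t : ℝ) : HasDerivAt an1 ((t - t ^ 3 / 6 + t ^ 5 / 40) ^ 1) t := by
  refine (((((hasDerivAt_pow 2 t).const_mul (1 / 2)).sub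
      ((hasDerivAt_pow 4 t).const_mul (1 / 24))).add
      ((hasDerivAt_pow 6 t).const_mul (1 / 240)))).congr_deriv ?_
  push_cast
  ring

/-- an antiderivative -/
def an2 (t : ℝ) : ℝ :=
  1 / 3 * t ^ 3 - 1 / 15 * t ^ 5 + 1 / 90 * t ^ 7 - 1 / 1080 * t ^ 9 + 1 / 17600 * t ^ 11

theorem an2_deriv (t : ℝ) : HasDerivAt an2 ((t - t ^ 3 / 6 + t ^ 5 / 40) ^ 2) t := by
  refine (((((((hasDerivAt_pow 3 t).const_mul (1 / 3)).sub
      ((hasDerivAt_pow 5 t).const_mul (1 / 15))).add
      ((hasDerivAt_pow 7 t).const_mul (1 / 90))).sub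
      ((hasDerivAt_pow 9 t).const_mul (1 / 1080))).add
      ((hasDerivAt_pow 11 t).const_mul (1 / 17600)))).congr_deriv ?_
  push_cast
  ring

/-- an antiderivative -/
def an3 (t : ℝ) : ℝ :=
  1 / 4 * t ^ 4 - 1 / 12 * t ^ 6 + 19 / 960 * t ^ 8 - 2 / 675 * t ^ 10 + 19 / 57600 * t ^ 12 -
    1 / 44800 * t ^ 14 + 1 / 1024000 * t ^ 16

theorem an3_deriv (t : ℝ) : HasDerivAt an3 ((t - t ^ 3 / 6 + t ^ 5 / 40) ^ 3) t := by
  refine (((((((((hasDerivAt_pow 4 t).const_mul (1 / 4)).sub
      ((hasDerivAt_pow 6 t).const_mul (1 / 12))).add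
      ((hasDerivAt_pow 8 t).const_mul (19 / 960))).sub
      ((hasDerivAt_pow 10 t).const_mul (2 / 675))).add
      ((hasDerivAt_pow 12 t).const_mul (19 / 57600))).sub
      ((hasDerivAt_pow 14 t).const_mul (1 / 44800))).add
      ((hasDerivAt_pow 16 t).const_mul (1 / 1024000)))).congr_deriv ?_
  push_cast
  ring

theorem qp_integral : (0.333 : ℝ) ≤ ∫ t in (0 : ℝ)..1.4, qp t ^ 3 := by
  have hd : ∀ t ∈ Set.uIcc (0 : ℝ) 1.4, HasDerivAt (fun t : ℝ => t - 3 * (79789 / 100000) * an1 t +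
      3 * (79789 / 100000) ^ 2 * an2 t - (79789 / 100000) ^ 3 * an3 t) (qp t ^ 3) t := by
    intro t _
    refine ((((hasDerivAt_id t).sub ((an1_deriv t).const_mul _)).add
      ((an2_deriv t).const_mul _)).sub ((an3_deriv t).const_mul _)).congr_deriv ?_
    unfold qp
    ring
  rw [intervalIntegral.integral_eq_sub_of_hasDerivAt hd (by
    apply Continuous.intervalIntegrable
    unfold qp
    fun_prop)]
  unfold an1 an2 an3
  norm_num

theorem qp_le (t : ℝ) (ht : 0 ≤ t) : qp t ^ 3 ≤ pg.real {x | t < mn x} := by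
  rw [mn_real]
  refine (Odd.strictMono_pow (by decide)).monotone ?_
  refine le_trans ?_ (tail_lower t ht)
  unfold qp
  have h1 := sqrt_two_div_pi_le
  have h2 : 0 ≤ t - t ^ 3 / 6 + t ^ 5 / 40 := by
    have : t - t ^ 3 / 6 + t ^ 5 / 40 = t * ((t ^ 2 - 10 / 3) ^ 2 / 40 + 13 / 18) := by ring
    rw [this]
    positivity
  have h3 : √(2 / π) * (t - t ^ 3 / 6 + t ^ 5 / 40) ≤
      79789 / 100000 * (t - t ^ 3 / 6 + t ^ 5 / 40) :=
    mul_le_mul_of_nonneg_right (h1.trans (by norm_num)) h2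
  linarith

theorem mn_nonneg (x : Fin 3 → ℝ) : 0 ≤ mn x := by
  unfold mn
  positivity

theorem mn_integrable : Integrable mn pg := by
  refine (integrable_abs_pg 0).mono mn_meas.aestronglyMeasurable ?_
  refine Filter.Eventually.of_forall fun x => ?_
  rw [Real.norm_of_nonneg (mn_nonneg x), Real.norm_of_nonneg (abs_nonneg _)]
  exact min_le_left _ _

/-- the mean of the smallest absolute value of the coordinates (the exact value is `0.33490`) -/
theorem gauss_min : (0.333 : ℝ) ≤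
    ∫ g : E 3, min |g 0| (min |g 1| |g 2|) ∂(stdGaussian (E 3)) := by
  rw [integral_std _ (by fun_prop)]
  change _ ≤ ∫ x, mn x ∂pg
  have hi : Integrable (fun x => min (mn x) 1.4) pg := mn_integrable.inf (integrable_const _)
  have h1 : ∫ x, min (mn x) 1.4 ∂pg ≤ ∫ x, mn x ∂pg :=
    integral_mono hi mn_integrable fun x => min_le_left _ _
  refine le_trans ?_ h1
  rw [hi.integral_eq_integral_Ioc_meas_le (M := 1.4)
    (Filter.Eventually.of_forall fun x => le_min (mn_nonneg x) (by norm_num))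
    (Filter.Eventually.of_forall fun x => min_le_right _ _)]
  rw [← intervalIntegral.integral_of_le (by norm_num)]
  refine qp_integral.trans ?_
  apply intervalIntegral.integral_mono_on (by norm_num)
  · apply Continuous.intervalIntegrable
    unfold qp
    fun_prop
  · apply Antitone.intervalIntegrable
    intro s t hst
    exact measureReal_mono fun x hx => le_trans hst hx
  · intro t ht
    refine (qp_le t ht.1).trans ?_
    exact measureReal_mono fun x hx => le_min (le_of_lt hx) ht.2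

end Pool.Agent.RRM
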