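import Pool.Agent.RRM.HaarA

/-!
# Averages over the rotation group

If `μ` is the Haar probability measure on `SO(3)` and `f` is continuous, even and homogeneous of
degree one, then `∫ f (R x) dμ(R) = c ‖x‖` with `c = E f(G) / E ‖G‖`, `G` standard Gaussian.
-/

set_option autoImplicit false

noncomputable section

namespace Pool.Agent.RRM

open MeasureTheory Matrix ProbabilityTheory

variable {d : ℕ}

instance : SecondCountableTopology (Matrix (Fin d) (Fin d) ℝ) :=
  inferInstanceAs (SecondCountableTopology (Fin d → Fin d → ℝ))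

instance : SecondCountableTopology (SO d) :=
  TopologicalSpace.Subtype.secondCountableTopology
    {A : Matrix (Fin d) (Fin d) ℝ | A ∈ Matrix.specialOrthogonalGroup (Fin d) ℝ}

theorem continuous_inv_SO : Continuous fun R : SO d => R⁻¹ := by
  apply Continuous.subtype_mk
  exact (continuous_subtype_val (p := fun A : Matrix (Fin d) (Fin d) ℝ =>
    A ∈ Matrix.specialOrthogonalGroup (Fin d) ℝ)).star

theorem continuous_act₂ : Continuous fun q : SO d × E d => act q.1 q.2 := by
  unfold act
  refine (PiLp.continuous_toLp 2 _).comp ?_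
  exact Continuous.matrix_mulVec (continuous_subtype_val.comp continuous_fst)
    ((PiLp.continuous_ofLp 2 _).comp continuous_snd)

theorem act_smul (R : SO d) (c : ℝ) (x : E d) : act R (c • x) = c • act R x := by
  unfold act
  rw [WithLp.ofLp_smul, Matrix.mulVec_smul, WithLp.toLp_smul]

/-- a continuous homogeneous function is bounded by a multiple of the norm -/
theorem exists_bound {f : E 3 → ℝ} (hf : Continuous f)
    (hhom : ∀ (c : ℝ) (x : E 3), f (c • x) = |c| * f x) : ∃ C, ∀ x, |f x| ≤ C * ‖x‖ := by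
  obtain ⟨C, hC⟩ := (isCompact_sphere (0 : E 3) 1).exists_bound_of_continuousOn hf.continuousOn
  refine ⟨C, fun x => ?_⟩
  by_cases hx : x = 0
  · subst hx
    have := hhom 0 0
    rw [zero_smul, abs_zero, zero_mul] at this
    rw [this]; simp
  · have hn : 0 < ‖x‖ := norm_pos_iff.2 hx
    have h1 : x = ‖x‖ • (‖x‖⁻¹ • x) := by rw [smul_smul, mul_inv_cancel₀ hn.ne', one_smul]
    have h2 : ‖x‖⁻¹ • x ∈ Metric.sphere (0 : E 3) 1 := by
      rw [mem_sphere_zero_iff_norm, norm_smul, norm_inv, norm_norm, inv_mul_cancel₀ hn.ne']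
    have h3 := hC _ h2
    rw [Real.norm_eq_abs] at h3
    rw [h1, hhom, abs_mul, abs_abs, abs_of_pos hn, mul_comm, ← h1]
    exact mul_le_mul_of_nonneg_right h3 hn.le

/-- the rotation as a linear isometry -/
def actIso (R : SO 3) : E 3 ≃ₗᵢ[ℝ] E 3 where
  toFun := act R
  invFun := act R⁻¹
  left_inv := act_inv_act R
  right_inv := act_act_inv R
  map_add' x y := by
    unfold act
    rw [WithLp.ofLp_add, Matrix.mulVec_add, WithLp.toLp_add]
  map_smul' c x := act_smul R c x
  norm_map' := norm_act R

section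

variable [MeasurableSpace (SO 3)] [BorelSpace (SO 3)] (μ : Measure (SO 3))
    [IsProbabilityMeasure μ]

/-- the average over the inverse rotations -/
def avg (f : E 3 → ℝ) (x : E 3) : ℝ := ∫ R, f (act R⁻¹ x) ∂μ

variable {μ}

omit [IsProbabilityMeasure μ] in
theorem avg_act (hμ : ∀ Q : SO 3, μ.map (fun R => Q * R) = μ) {f : E 3 → ℝ} (hf : Continuous f)
    (Q : SO 3) (x : E 3) : avg μ f (act Q x) = avg μ f x := by
  unfold avg
  have hc : Continuous fun R : SO 3 => f (act R⁻¹ x) :=
    hf.comp ((continuous_act x).comp continuous_inv_SO)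
  conv_rhs => rw [← hμ Q⁻¹]
  have hm : Continuous fun R : SO 3 => Q⁻¹ * R := continuous_const.mul continuous_id
  rw [integral_map hm.aemeasurable hc.aestronglyMeasurable]
  refine integral_congr_ae (Filter.Eventually.of_forall fun R => ?_)
  simp only
  rw [_root_.mul_inv_rev, inv_inv, act_mul]

omit [BorelSpace (SO 3)] [IsProbabilityMeasure μ] in
theorem avg_smul {f : E 3 → ℝ} (hhom : ∀ (c : ℝ) (x : E 3), f (c • x) = |c| * f x) (c : ℝ)
    (x : E 3) : avg μ f (c • x) = |c| * avg μ f x := by
  unfold avg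
  rw [← integral_const_mul]
  refine integral_congr_ae (Filter.Eventually.of_forall fun R => ?_)
  simp only
  rw [act_smul, hhom]

/-- a fixed unit vector -/
def e0 : E 3 := EuclideanSpace.single 0 1

theorem avg_eq (hμ : ∀ Q : SO 3, μ.map (fun R => Q * R) = μ) {f : E 3 → ℝ} (hf : Continuous f)
    (hhom : ∀ (c : ℝ) (x : E 3), f (c • x) = |c| * f x) (x : E 3) :
    avg μ f x = ‖x‖ * avg μ f e0 := by
  have h : ‖x‖ = ‖‖x‖ • e0‖ := by
    rw [norm_smul, norm_norm, e0, PiLp.norm_single, norm_one, mul_one]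
  obtain ⟨Q, hQ⟩ := exists_rot h
  rw [← avg_act hμ hf Q x]
  rcases hQ with hQ | hQ
  · rw [hQ, avg_smul hhom, abs_norm]
  · rw [hQ, ← neg_smul, avg_smul hhom, abs_neg, abs_norm]

end

theorem haar_average [MeasurableSpace (SO 3)] [BorelSpace (SO 3)] (μ : Measure (SO 3))
    [IsProbabilityMeasure μ] (hμ : ∀ Q : SO 3, μ.map (fun R => Q * R) = μ) (f : E 3 → ℝ)
    (hf : Continuous f) (hhom : ∀ (c : ℝ) (x : E 3), f (c • x) = |c| * f x) (x : E 3) :
    (∫ R, f (act R x) ∂μ) * ∫ g, ‖g‖ ∂(stdGaussian (E 3)) =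
      ‖x‖ * ∫ g, f g ∂(stdGaussian (E 3)) := by
  obtain ⟨C, hC⟩ := exists_bound hf hhom
  -- first identity
  have h1 : (avg μ f e0) * ∫ g, ‖g‖ ∂(stdGaussian (E 3)) = ∫ g, f g ∂(stdGaussian (E 3)) := by
    have a1 : ∫ g, avg μ f g ∂(stdGaussian (E 3)) =
        (avg μ f e0) * ∫ g, ‖g‖ ∂(stdGaussian (E 3)) := by
      rw [← integral_const_mul]
      refine integral_congr_ae (Filter.Eventually.of_forall fun g => ?_)
      simp only
      rw [avg_eq hμ hf hhom g, mul_comm]
    rw [← a1]
    have hcont : Continuous fun q : E 3 × SO 3 => f (act q.2⁻¹ q.1) :=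
      hf.comp (continuous_act₂.comp ((continuous_inv_SO.comp continuous_snd).prodMk
        continuous_fst))
    have hn : Integrable (fun g : E 3 => ‖g‖) (stdGaussian (E 3)) :=
      (IsGaussian.integrable_id (μ := stdGaussian (E 3))).norm
    have hint : Integrable (fun q : E 3 × SO 3 => f (act q.2⁻¹ q.1))
        ((stdGaussian (E 3)).prod μ) := by
      have hb : Integrable (fun q : E 3 × SO 3 => C * ‖q.1‖) ((stdGaussian (E 3)).prod μ) :=
        (hn.const_mul C).comp_fst μ
      refine hb.mono' hcont.aestronglyMeasurable (Filter.Eventually.of_forall fun q => ?_)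
      rw [Real.norm_eq_abs]
      refine (hC _).trans ?_
      rw [norm_act]
    unfold avg
    rw [integral_integral_swap hint]
    have a2 : ∀ R : SO 3, ∫ g, f (act R⁻¹ g) ∂(stdGaussian (E 3)) =
        ∫ g, f g ∂(stdGaussian (E 3)) := by
      intro R
      have := stdGaussian_map (actIso R⁻¹)
      conv_rhs => rw [← this]
      rw [integral_map (actIso R⁻¹).continuous.aemeasurable hf.aestronglyMeasurable]
      rfl
    simp only [a2, integral_const, smul_eq_mul, probReal_univ, one_mul]
  -- second identity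
  have h2 : ∫ R, f (act R x) ∂μ = ‖x‖ * avg μ f e0 := by
    have hcx : Continuous fun R : SO 3 => f (act R x) := hf.comp (continuous_act x)
    have b1 : ∀ Q : SO 3, ∫ R, f (act Q⁻¹ (act R x)) ∂μ = ∫ R, f (act R x) ∂μ := by
      intro Q
      conv_rhs => rw [← hμ Q⁻¹]
      have hm : Continuous fun R : SO 3 => Q⁻¹ * R := continuous_const.mul continuous_id
      rw [integral_map hm.aemeasurable hcx.aestronglyMeasurable]
      refine integral_congr_ae (Filter.Eventually.of_forall fun R => ?_)
      simp only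
      rw [act_mul]
    have b2 : ∫ Q, ∫ R, f (act Q⁻¹ (act R x)) ∂μ ∂μ = ∫ R, f (act R x) ∂μ := by
      simp only [b1, integral_const, smul_eq_mul, probReal_univ, one_mul]
    have hcont : Continuous fun q : SO 3 × SO 3 => f (act q.1⁻¹ (act q.2 x)) :=
      hf.comp (continuous_act₂.comp ((continuous_inv_SO.comp continuous_fst).prodMk
        ((continuous_act x).comp continuous_snd)))
    have hint : Integrable (fun q : SO 3 × SO 3 => f (act q.1⁻¹ (act q.2 x))) (μ.prod μ) := by
      refine Integrable.of_bound hcont.aestronglyMeasurable (C * ‖x‖)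
        (Filter.Eventually.of_forall fun q => ?_)
      rw [Real.norm_eq_abs]
      refine (hC _).trans ?_
      rw [norm_act, norm_act]
    rw [← b2, integral_integral_swap hint]
    have b3 : ∀ R : SO 3, ∫ Q, f (act Q⁻¹ (act R x)) ∂μ = ‖x‖ * avg μ f e0 := by
      intro R
      have := avg_eq hμ hf hhom (act R x)
      rw [norm_act] at this
      exact this
    simp only [b3, integral_const, smul_eq_mul, probReal_univ, one_mul]
  rw [h2, mul_assoc, h1]

end Pool.Agent.RRM
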