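import Pool.Agent.RRM.Act

/-!
# The rotation group is transitive on the spheres, up to sign
-/

set_option autoImplicit false

noncomputable section

namespace Pool.Agent.RRM

open Matrix

theorem exists_rot {v w : E 3} (h : ‖v‖ = ‖w‖) : ∃ Q : SO 3, act Q v = w ∨ act Q v = -w := by
  by_cases hvw : v = w
  · exact ⟨1, Or.inl (by rw [act_one, hvw])⟩
  set u : E 3 := v - w with hu
  have hu0 : u ≠ 0 := sub_ne_zero.2 hvw
  set s : ℝ := u 0 ^ 2 + u 1 ^ 2 + u 2 ^ 2 with hs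
  have hsn : s = ‖u‖ ^ 2 := by rw [EuclideanSpace.real_norm_sq_eq, Fin.sum_univ_three]
  have hs0 : s ≠ 0 := by rw [hsn]; exact pow_ne_zero 2 (norm_ne_zero_iff.2 hu0)
  have hvv : v 0 ^ 2 + v 1 ^ 2 + v 2 ^ 2 = w 0 ^ 2 + w 1 ^ 2 + w 2 ^ 2 := by
    have h1 := EuclideanSpace.real_norm_sq_eq v
    have h2 := EuclideanSpace.real_norm_sq_eq w
    rw [Fin.sum_univ_three] at h1 h2
    rw [← h1, ← h2, h]
  have c0 : u 0 = v 0 - w 0 := rfl
  have c1 : u 1 = v 1 - w 1 := rfl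
  have c2 : u 2 = v 2 - w 2 := rfl
  have hdot : s = 2 * (u 0 * v 0 + u 1 * v 1 + u 2 * v 2) := by
    rw [hs, c0, c1, c2]; linear_combination (-1 : ℝ) * hvv
  -- the Householder matrix
  set A : Matrix (Fin 3) (Fin 3) ℝ :=
    !![1 - 2 * u 0 * u 0 / s, -2 * u 0 * u 1 / s, -2 * u 0 * u 2 / s;
       -2 * u 1 * u 0 / s, 1 - 2 * u 1 * u 1 / s, -2 * u 1 * u 2 / s;
       -2 * u 2 * u 0 / s, -2 * u 2 * u 1 / s, 1 - 2 * u 2 * u 2 / s] with hA
  have hAA : A * Aᵀ = 1 := by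
    ext i j
    fin_cases i <;> fin_cases j <;>
      simp [hA, Matrix.mul_apply, Fin.sum_univ_three] <;> field_simp <;> rw [hs] <;> ring
  have hAv : A *ᵥ v.ofLp = w.ofLp := by
    ext i
    fin_cases i <;> simp [hA, Matrix.mulVec, dotProduct, Fin.sum_univ_three] <;> field_simp
    · linear_combination (u 0) * hdot - s * c0
    · linear_combination (u 1) * hdot - s * c1
    · linear_combination (u 2) * hdot - s * c2
  have hdet : A.det = 1 ∨ A.det = -1 := by
    have := congrArg Matrix.det hAA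
    rw [Matrix.det_mul, Matrix.det_transpose, Matrix.det_one] at this
    exact mul_self_eq_one_iff.1 this
  rcases hdet with hd | hd
  · refine ⟨⟨A, Matrix.mem_specialOrthogonalGroup_iff.2
      ⟨(Matrix.mem_orthogonalGroup_iff _ _).2 hAA, hd⟩⟩, Or.inl ?_⟩
    unfold act
    rw [hAv]
  · refine ⟨⟨-A, Matrix.mem_specialOrthogonalGroup_iff.2
      ⟨(Matrix.mem_orthogonalGroup_iff _ _).2 ?_, ?_⟩⟩, Or.inr ?_⟩
    · rw [Matrix.transpose_neg, neg_mul_neg]; exact hAA
    · rw [Matrix.det_neg, hd]; norm_num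
    · unfold act
      rw [Matrix.neg_mulVec, hAv]
      rfl

end Pool.Agent.RRM
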