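import Pool.Agent.RRM.Act
import Pool.Agent.RRM.Haar
import Pool.Agent.RRM.Gauss

/-!
# The mechanism in dimension three
-/

set_option autoImplicit false

noncomputable section

namespace Pool.Agent.RRM

open MeasureTheory Matrix ProbabilityTheory Real

theorem integrable_coord (j : Fin 3) :
    Integrable (fun g : E 3 => |g j|) (stdGaussian (E 3)) := by
  have h : Integrable (fun g : E 3 => ‖g‖) (stdGaussian (E 3)) :=
    (IsGaussian.integrable_id (μ := stdGaussian (E 3))).norm
  refine h.mono' ((PiLp.continuous_apply 2 _ j).abs).aestronglyMeasurable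
    (Filter.Eventually.of_forall fun g => ?_)
  rw [Real.norm_eq_abs, abs_abs, ← Real.norm_eq_abs]
  exact PiLp.norm_apply_le g j

theorem integral_hh_gauss :
    ∫ g, hh g ∂(stdGaussian (E 3)) ≤ 1.412 * ∫ g, ‖g‖ ∂(stdGaussian (E 3)) := by
  have i0 := integrable_coord 0
  have i1 := integrable_coord 1
  have i2 := integrable_coord 2
  have im : Integrable (fun g : E 3 => min |g 0| (min |g 1| |g 2|)) (stdGaussian (E 3)) :=
    i0.inf (i1.inf i2)
  have e : ∫ g, hh g ∂(stdGaussian (E 3)) =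
      (∫ g : E 3, |g 0| ∂(stdGaussian (E 3))) + (∫ g : E 3, |g 1| ∂(stdGaussian (E 3))) +
        (∫ g : E 3, |g 2| ∂(stdGaussian (E 3))) -
        (1 - th) * ∫ g : E 3, min |g 0| (min |g 1| |g 2|) ∂(stdGaussian (E 3)) := by
    have a1 : Integrable (fun g : E 3 => |g 0| + |g 1|) (stdGaussian (E 3)) := i0.add i1
    have a2 : Integrable (fun g : E 3 => |g 0| + |g 1| + |g 2|) (stdGaussian (E 3)) := a1.add i2
    unfold hh H
    rw [integral_sub a2 (im.const_mul _), integral_const_mul, integral_add a1 i2,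
      integral_add i0 i1]
  rw [e, gauss_norm 0, gauss_abs, gauss_abs, gauss_abs]
  have hm := gauss_min
  have hk : √(2 / π) ≤ 0.79789 := by
    apply Real.sqrt_le_iff.2 ⟨by norm_num, ?_⟩
    rw [div_le_iff₀ Real.pi_pos]
    nlinarith [Real.pi_gt_d6]
  have ht : th ≤ 0.57736 := by
    by_contra h
    push Not at h
    nlinarith [th_sq]
  have h1 : (0.42264 : ℝ) * 0.333 ≤
      (1 - th) * ∫ g : E 3, min |g 0| (min |g 1| |g 2|) ∂(stdGaussian (E 3)) := by
    apply mul_le_mul (by linarith) hm (by norm_num) (by linarith)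
  generalize √(2 / π) = κ at *
  linarith

theorem integrable_act [MeasurableSpace (SO 3)] [BorelSpace (SO 3)] (μ : Measure (SO 3))
    [IsProbabilityMeasure μ] (x : E 3) : Integrable (fun R => hh (act R x)) μ := by
  refine Integrable.of_bound
    ((continuous_hh.comp (continuous_act x)).aestronglyMeasurable) (3 * ‖x‖) ?_
  refine Filter.Eventually.of_forall fun R => ?_
  have h : ∀ j : Fin 3, |(act R x) j| ≤ ‖x‖ := fun j => by
    rw [← norm_act R x, ← Real.norm_eq_abs]
    exact PiLp.norm_apply_le _ j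
  have h0 : ∀ j : Fin 3, 0 ≤ |(act R x) j| := fun j => abs_nonneg _
  unfold hh H
  have hmn : 0 ≤ min |(act R x) 0| (min |(act R x) 1| |(act R x) 2|) :=
    le_min (h0 0) (le_min (h0 1) (h0 2))
  have hm0 : min |(act R x) 0| (min |(act R x) 1| |(act R x) 2|) ≤ |(act R x) 0| :=
    min_le_left _ _
  have t1 := th_pos
  have t2 := th_ub
  rw [Real.norm_eq_abs, abs_le]
  constructor
  · nlinarith [h0 0, h0 1, h0 2, norm_nonneg x]
  · nlinarith [h 0, h 1, h 2]

theorem average [MeasurableSpace (SO 3)] [BorelSpace (SO 3)] (μ : Measure (SO 3))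
    [IsProbabilityMeasure μ] (hμ : ∀ Q : SO 3, μ.map (fun R => Q * R) = μ) (x : E 3) :
    ∫ R, hh (act R x) ∂μ ≤ 1.412 * ‖x‖ := by
  have h := haar_average μ hμ hh continuous_hh hh_smul x
  have hg := integral_hh_gauss
  have hpos : 0 < ∫ g, ‖g‖ ∂(stdGaussian (E 3)) := by
    rw [gauss_norm 0, gauss_abs]
    positivity
  have : (∫ R, hh (act R x) ∂μ) * ∫ g, ‖g‖ ∂(stdGaussian (E 3)) ≤
      (1.412 * ‖x‖) * ∫ g, ‖g‖ ∂(stdGaussian (E 3)) := by
    rw [h]
    calc ‖x‖ * ∫ g, hh g ∂(stdGaussian (E 3)) ≤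
        ‖x‖ * (1.412 * ∫ g, ‖g‖ ∂(stdGaussian (E 3))) :=
          mul_le_mul_of_nonneg_left hg (norm_nonneg x)
      _ = _ := by ring
  exact le_of_mul_le_mul_right this hpos

/-- **The randomly rotated coordinate-wise median in dimension three.** -/
theorem main [MeasurableSpace (SO 3)] [BorelSpace (SO 3)] (μ : Measure (SO 3))
    [IsProbabilityMeasure μ] (hμ : ∀ Q : SO 3, μ.map (fun R => Q * R) = μ) {n : ℕ}
    (p : Fin (n + 1) → E 3) (y : E 3) :
    Integrable (fun R => cost p (rr R p)) μ ∧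
      ∫ R, cost p (rr R p) ∂μ ≤ 1.412 * cost p y := by
  have hs : Integrable (fun R => ∑ i, hh (act R (p i - y))) μ :=
    integrable_finsetSum _ fun i _ => integrable_act μ _
  have hc : Integrable (fun R => cost p (rr R p)) μ := by
    refine hs.mono' (continuous_cost p).aestronglyMeasurable
      (Filter.Eventually.of_forall fun R => ?_)
    rw [Real.norm_eq_abs, abs_of_nonneg
      (show 0 ≤ cost p (rr R p) from Finset.sum_nonneg fun i _ => norm_nonneg _)]
    exact cost_le R p y
  refine ⟨hc, ?_⟩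
  calc ∫ R, cost p (rr R p) ∂μ ≤ ∫ R, ∑ i, hh (act R (p i - y)) ∂μ :=
        integral_mono hc hs fun R => cost_le R p y
    _ = ∑ i, ∫ R, hh (act R (p i - y)) ∂μ := integral_finsetSum _ fun i _ => integrable_act μ _
    _ ≤ ∑ i, 1.412 * ‖p i - y‖ := Finset.sum_le_sum fun i _ => average μ hμ _
    _ = 1.412 * cost p y := by unfold cost; rw [Finset.mul_sum]

end Pool.Agent.RRM
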